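import Mathlib

open Cardinal Set
open Ordinal (omega)

namespace Pool.Agent.Results.MP_bf47cd_lc.NotRetract

/-- The well-ordered set of all ordinals below `ω₂`. -/
abbrev W : Type := (Ordinal.omega 2 : Ordinal.{0}).ToType

/-- For `σ` in `^α ω₂` (with `α < ω₂`), `N α σ` is the set of all `x` in `^{ω₂} ω₂`
which extend `σ`. -/
def N (α : W) (σ : Iio α → W) : Set (W → W) := {x | ∀ β : Iio α, x β = σ β}

set_option warn.classDefReducibility false in
/-- The bounded topology on `^{ω₂} ω₂`, generated by the sets `N α σ`. -/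
def boundedTopology : TopologicalSpace (W → W) :=
  TopologicalSpace.generateFrom {U | ∃ (α : W) (σ : Iio α → W), U = N α σ}

/-- The restriction of `x` to `α`. -/
def res (x : W → W) (α : W) : Iio α → W := fun β => x β

/-- A tree `T ⊆ ^{<ω₂} ω₂`, closed under initial segments; `T.level α` is the set of the
elements of `T` which have domain `α`. -/
structure Tree where
  level : (α : W) → Set (Iio α → W)
  initial : ∀ (α β : W) (h : α ≤ β) (σ : Iio β → W), σ ∈ level β →
    (fun γ : Iio α => σ ⟨γ, lt_of_lt_of_le γ.2 h⟩) ∈ level α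

/-- The set `[T]` of branches of `T` through all levels. -/
def Tree.branches (T : Tree) : Set (W → W) := {x | ∀ α, res x α ∈ T.level α}

/-- `T` is an `ω₂`-Kurepa tree. -/
structure Tree.IsKurepa (T : Tree) : Prop where
  nonempty : ∀ α, (T.level α).Nonempty
  small : ∀ α, #(T.level α) ≤ ℵ_ 1
  many : ℵ_ 3 ≤ #T.branches

/-- `Y` is a retract of `^{ω₂} ω₂` (with the bounded topology). -/
def IsRetract (Y : Set (W → W)) : Prop :=
  ∃ r : (W → W) → (W → W), @Continuous _ _ boundedTopology boundedTopology r ∧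
    (∀ x, r x ∈ Y) ∧ ∀ y ∈ Y, r y = y

theorem exists_nhd {U : Set (W → W)} (hU : boundedTopology.IsOpen U) :
    ∀ x ∈ U, ∃ γ : W, N γ (res x γ) ⊆ U := by
  have hne : Nonempty W := by
    rw [Ordinal.nonempty_toType_iff]; exact (Ordinal.omega_pos 2).ne'
  induction hU with
  | basic s hs =>
    obtain ⟨α, σ, rfl⟩ := hs
    intro x hx
    refine ⟨α, fun z hz β => ?_⟩
    rw [hz β]; exact hx β
  | univ => intro x _; exact ⟨hne.some, fun _ _ => trivial⟩
  | inter s t _ _ ihs iht =>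
    intro x hx
    obtain ⟨γ, hγ⟩ := ihs x hx.1
    obtain ⟨δ, hδ⟩ := iht x hx.2
    refine ⟨max γ δ, fun z hz => ⟨hγ fun β => ?_, hδ fun β => ?_⟩⟩
    · exact hz ⟨β, mem_Iio.2 (lt_of_lt_of_le (mem_Iio.1 β.2) (le_max_left γ δ))⟩
    · exact hz ⟨β, mem_Iio.2 (lt_of_lt_of_le (mem_Iio.1 β.2) (le_max_right γ δ))⟩
  | sUnion S _ ih =>
    rintro x ⟨s, hs, hx⟩
    obtain ⟨γ, hγ⟩ := ih s hs x hx
    exact ⟨γ, fun z hz => ⟨s, hs, hγ hz⟩⟩

theorem mk_W : #W = ℵ_ 2 := by
  rw [mk_toType, Ordinal.card_omega]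

theorem succ_aleph_one : Order.succ (ℵ_ 1) = ℵ_ 2 := by
  rw [Cardinal.succ_aleph]; norm_num

theorem mk_Iic_le (a : W) : #(Iic a) ≤ ℵ_ 1 := by
  have h1 : #(Iio a) < ℵ_ 2 := by
    have := Cardinal.mk_Iio_lt (α := W) a (by rw [mk_W, Ordinal.type_toType, ord_aleph])
    rwa [mk_W] at this
  rw [← succ_aleph_one, Order.lt_succ_iff] at h1
  have h2 : Iic a = insert a (Iio a) := by
    ext x; simp [le_iff_eq_or_lt]
  rw [h2]
  refine (mk_insert_le).trans ?_
  exact (add_le_add h1 (one_le_aleph0.trans (aleph0_le_aleph 1))).trans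
    (by rw [add_eq_self (aleph0_le_aleph 1)])

theorem exists_bound {ι : Type} (hι : #ι ≤ ℵ_ 1) (f : ι → W) : ∃ b, ∀ i, f i < b := by
  by_contra hcon
  push Not at hcon
  have hcov : (⋃ i, Iic (f i)) = (univ : Set W) := by
    refine eq_univ_of_forall fun x => ?_
    obtain ⟨i, hi⟩ := hcon x
    exact mem_iUnion.2 ⟨i, hi⟩
  have h1 : #(⋃ i, Iic (f i)) ≤ #ι * ⨆ i, #(Iic (f i)) := mk_iUnion_le _
  rw [hcov, mk_univ, mk_W] at h1
  have h2 : (⨆ i, #(Iic (f i))) ≤ ℵ_ 1 := ciSup_le' fun i => mk_Iic_le _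
  have h3 : ℵ_ 2 ≤ ℵ_ 1 := by
    refine h1.trans ((mul_le_mul' hι h2).trans ?_)
    rw [mul_eq_self (aleph0_le_aleph 1)]
  rw [← succ_aleph_one] at h3
  exact absurd h3 (not_le.2 (Order.lt_succ _))

theorem exists_lub {ι : Type} (hι : #ι ≤ ℵ_ 1) (f : ι → W) :
    ∃ b, (∀ i, f i ≤ b) ∧ ∀ β < b, ∃ i, β < f i := by
  obtain ⟨b, hb⟩ := exists_bound hι f
  have hne : {b | ∀ i, f i ≤ b}.Nonempty := ⟨b, fun i => (hb i).le⟩
  refine ⟨wellFounded_lt.min _ hne, wellFounded_lt.min_mem _ hne, fun β hβ => ?_⟩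
  by_contra hcon
  push Not at hcon
  exact wellFounded_lt.not_lt_min {b | ∀ i, f i ≤ b} (x := β) hcon hβ

theorem exists_rec {I X : Type} [LinearOrder I] [WellFoundedLT I]
    (F : (i : I) → (Iio i → X) → X) : ∃ Y : I → X, ∀ i, Y i = F i (fun j => Y j) := by
  refine ⟨wellFounded_lt.fix (fun i IH => F i (fun j => IH j j.2)), fun i => ?_⟩
  rw [WellFounded.fix_eq]

/-- The index set of length `ω₁`. -/
abbrev W1 : Type := (Ordinal.omega 1 : Ordinal.{0}).ToType

theorem mk_W1 : #W1 = ℵ_ 1 := by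
  rw [mk_toType, Ordinal.card_omega]

theorem mk_set_W1 (A : Set W1) : #A ≤ ℵ_ 1 := (mk_set_le A).trans_eq mk_W1

/-- Main lemma: a tree with levels of size at most `ℵ₁`, all of whose nodes lie on at least two
branches, does not have a branch space which is a retract. -/
theorem not_isRetract (T : Tree) (hsmall : ∀ α, #(T.level α) ≤ ℵ_ 1)
    (hsplit : ∀ α, ∀ σ ∈ T.level α, ∃ y ∈ T.branches, ∃ z ∈ T.branches,
      y ∈ N α σ ∧ z ∈ N α σ ∧ y ≠ z) :
    ¬ IsRetract T.branches := by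
  classical
  rintro ⟨r, hrc, hrY, hrid⟩
  -- modulus of continuity
  have hmod : ∀ (x : W → W) (γ : W), ∃ δ, ∀ z, (∀ β < δ, z β = x β) → ∀ β < γ, r z β = r x β := by
    intro x γ
    have hopen : boundedTopology.IsOpen (r ⁻¹' (N γ (res (r x) γ))) := by
      refine @Continuous.isOpen_preimage _ _ boundedTopology boundedTopology _ hrc _ ?_
      exact TopologicalSpace.isOpen_generateFrom_of_mem ⟨γ, _, rfl⟩
    obtain ⟨δ, hδ⟩ := exists_nhd hopen x (fun β => rfl)
    refine ⟨δ, fun z hz β hβ => ?_⟩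
    have : z ∈ N δ (res x δ) := fun β => hz β β.2
    exact hδ this ⟨β, hβ⟩
  -- the splitting function
  have hS : ∃ S : (α : W) → (Iio α → W) → Bool → (W → W), ∀ α, ∀ σ ∈ T.level α,
      (∀ b, S α σ b ∈ T.branches ∧ S α σ b ∈ N α σ) ∧ S α σ false ≠ S α σ true := by
    choose y hy z hz hyN hzN hyz using hsplit
    refine ⟨fun α σ b => if h : σ ∈ T.level α then (if b then y α σ h else z α σ h) else id,
      fun α σ hσ => ⟨fun b => ?_, ?_⟩⟩
    · cases b
      · simpa [hσ] using ⟨hz α σ hσ, hzN α σ hσ⟩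
      · simpa [hσ] using ⟨hy α σ hσ, hyN α σ hσ⟩
    · simpa [hσ] using (hyz α σ hσ).symm
  obtain ⟨S, hS⟩ := hS
  -- the closure level
  have hg : ∀ α : W, ∃ g : W, ∀ σ ∈ T.level α,
      (∃ β < g, S α σ false β ≠ S α σ true β) ∧
      ∀ b, ∀ z, (∀ β < g, z β = S α σ b β) → ∀ β < g, r z β = S α σ b β := by
    intro α
    have hcard : #(T.level α × Bool) ≤ ℵ_ 1 := by
      rw [mk_prod, Cardinal.lift_id, Cardinal.lift_id, mk_bool]
      exact (mul_le_mul' (hsmall α) ((Cardinal.natCast_lt_aleph0 (n := 2)).le.trans (aleph0_le_aleph 1))).trans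
        (by rw [mul_eq_self (aleph0_le_aleph 1)])
    -- starting point
    have h0 : ∃ γ₀ : W, ∀ σ ∈ T.level α, ∃ β < γ₀, S α σ false β ≠ S α σ true β := by
      have : ∀ σ : T.level α, ∃ β, S α σ false β ≠ S α σ true β := fun σ =>
        Function.ne_iff.1 (hS α σ σ.2).2
      choose β hβ using this
      obtain ⟨b, hb⟩ := exists_bound (hsmall α) β
      exact ⟨b, fun σ hσ => ⟨β ⟨σ, hσ⟩, hb _, hβ ⟨σ, hσ⟩⟩⟩
    obtain ⟨γ₀, hγ₀⟩ := h0
    have hstep : ∀ γ : W, ∃ δ : W, γ < δ ∧ ∀ σ ∈ T.level α, ∀ b, ∀ z,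
        (∀ β < δ, z β = S α σ b β) → ∀ β < γ, r z β = S α σ b β := by
      intro γ
      have h1 : ∀ p : T.level α × Bool, ∃ δ, ∀ z, (∀ β < δ, z β = S α p.1 p.2 β) →
          ∀ β < γ, r z β = S α p.1 p.2 β := by
        intro p
        obtain ⟨δ, hδ⟩ := hmod (S α p.1 p.2) γ
        rw [hrid _ ((hS α p.1 p.1.2).1 p.2).1] at hδ
        exact ⟨δ, hδ⟩
      choose d hd using h1
      obtain ⟨b, hb⟩ := exists_bound hcard d
      obtain ⟨c, hc⟩ := exists_bound (ι := Unit) (by
        rw [mk_fintype]; simpa using one_le_aleph0.trans (aleph0_le_aleph 1)) (fun _ => γ)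
      refine ⟨max b c, lt_of_lt_of_le (hc ()) (le_max_right _ _), fun σ hσ e z hz => ?_⟩
      exact hd (⟨σ, hσ⟩, e) z fun β hβ => hz β
        (lt_of_lt_of_le hβ ((hb (⟨σ, hσ⟩, e)).le.trans (le_max_left _ _)))
    choose h hlt hh using hstep
    let γ : ℕ → W := fun n => h^[n] γ₀
    obtain ⟨g, hg1, hg2⟩ := exists_lub (ι := ℕ) (by
      rw [mk_nat]; exact aleph0_le_aleph 1) γ
    refine ⟨g, fun σ hσ => ⟨?_, fun b z hz β hβ => ?_⟩⟩
    · obtain ⟨β, hβ, hne⟩ := hγ₀ σ hσ
      exact ⟨β, lt_of_lt_of_le hβ (hg1 0), hne⟩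
    · obtain ⟨n, hn⟩ := hg2 β hβ
      refine hh (γ n) σ hσ b z (fun β' hβ' => hz β' ?_) β hn
      refine lt_of_lt_of_le hβ' ?_
      have := hg1 (n + 1)
      simpa [γ, Function.iterate_succ_apply'] using this
  choose g hg using hg
  -- the levels
  have ha : ∃ a : W1 → W, ∀ j i, j < i → g (a j) < a i := by
    have : ∀ (i : W1) (f : Iio i → W), ∃ b, ∀ j, g (f j) < b := fun i f =>
      exists_bound (mk_set_W1 _) _
    choose F hF using this
    obtain ⟨a, ha⟩ := exists_rec F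
    refine ⟨a, fun j i hji => ?_⟩
    rw [ha i]
    exact hF i (fun j => a j) ⟨j, hji⟩
  obtain ⟨a, ha⟩ := ha
  -- the scheme
  let glue : (A : Set W1) → (A → (W → W)) → (W → W) := fun A Y β =>
    if h : ∃ j : A, β < g (a j) then Y h.choose β else β
  have hY : ∀ u : W1 → Bool, ∃ Y : W1 → (W → W), ∀ i,
      Y i = S (a i) (res (r (glue (Iio i) (fun j => Y j))) (a i)) (u i) := fun u =>
    exists_rec (fun i Y => S (a i) (res (r (glue (Iio i) Y)) (a i)) (u i))
  choose Y hY using hY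
  have hlev : ∀ x α, res (r x) α ∈ T.level α := fun x α => hrY x α
  have hYb : ∀ u i, Y u i ∈ T.branches := fun u i => by
    rw [hY]; exact ((hS _ _ (hlev _ _)).1 _).1
  -- abbreviation for the glued function
  have hclose : ∀ u i z, (∀ β < g (a i), z β = Y u i β) → ∀ β < g (a i), r z β = Y u i β := by
    intro u i z hz
    have := (hg (a i) _ (hlev (glue (Iio i) (fun j => Y u j)) (a i))).2 (u i) z
    rw [← hY u i] at this
    exact this hz
  -- gluing a coherent family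
  have hglue : ∀ (A : Set W1) (u : W1 → Bool),
      (∀ i ∈ A, ∀ j < i, ∀ β < g (a j), Y u i β = Y u j β) →
      ∀ j ∈ A, ∀ β < g (a j), glue A (fun j => Y u j) β = Y u j β := by
    intro A u hA j hj β hβ
    have hex : ∃ j : A, β < g (a j) := ⟨⟨j, hj⟩, hβ⟩
    have hch := hex.choose_spec
    show (if h : ∃ j : A, β < g (a j) then Y u h.choose β else β) = _
    rw [dif_pos hex]
    rcases lt_trichotomy (hex.choose : W1) j with hlt | heq | hgt
    · exact (hA j hj _ hlt β hch).symm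
    · rw [heq]
    · exact hA _ hex.choose.2 j hgt β hβ
  have hcoh : ∀ u i, ∀ j < i, ∀ β < g (a j), Y u i β = Y u j β := by
    intro u i
    induction i using WellFoundedLT.induction with
    | ind i ih =>
      intro j hj β hβ
      have h1 := hglue (Iio i) u ih j hj
      have h2 := hclose u j _ h1 β hβ
      have h3 := ((hS (a i) _ (hlev (glue (Iio i) (fun j => Y u j)) (a i))).1 (u i)).2
      rw [← hY u i] at h3
      have h4 := h3 ⟨β, lt_trans hβ (ha j i hj)⟩
      rw [h4]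
      exact h2
  -- the final nodes
  obtain ⟨δ, hδ⟩ := exists_bound (mk_W1.le) (fun i => g (a i))
  let E : (W1 → Bool) → T.level δ := fun u =>
    ⟨res (r (glue univ (fun j => Y u j))) δ, hlev _ _⟩
  have hEinj : Function.Injective E := by
    intro u v huv
    by_contra hne'
    have hex : {i | u i ≠ v i}.Nonempty := Function.ne_iff.1 hne'
    set i := wellFounded_lt.min _ hex with hi
    have hi1 : u i ≠ v i := wellFounded_lt.min_mem _ hex
    have hi2 : ∀ j < i, u j = v j := fun j hj => by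
      by_contra hcon
      exact wellFounded_lt.not_lt_min _ hcon hj
    have hsame : ∀ j < i, Y u j = Y v j := by
      intro j
      induction j using WellFoundedLT.induction with
      | ind j ih =>
        intro hj
        rw [hY u j, hY v j, hi2 j hj]
        have : (fun k : Iio j => Y u k) = (fun k : Iio j => Y v k) := by
          funext k
          exact ih k k.2 (lt_trans k.2 hj)
        rw [this]
    have hsame' : (fun k : Iio i => Y u k) = (fun k : Iio i => Y v k) := by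
      funext k; exact hsame k k.2
    obtain ⟨⟨β, hβ, hβne⟩, -⟩ := hg (a i) _ (hlev (glue (Iio i) (fun j => Y u j)) (a i))
    have hu := hY u i
    have hv := hY v i
    rw [← hsame'] at hv
    have hdiff : Y u i β ≠ Y v i β := by
      rw [hu, hv]
      cases hub : u i <;> cases hvb : v i
      · exact absurd (hub.trans hvb.symm) hi1
      · exact hβne
      · exact hβne.symm
      · exact absurd (hub.trans hvb.symm) hi1
    have e1 : r (glue univ (fun j => Y u j)) β = Y u i β :=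
      hclose u i _ (hglue univ u (fun i _ => hcoh u i) i trivial) β hβ
    have e2 : r (glue univ (fun j => Y v j)) β = Y v i β :=
      hclose v i _ (hglue univ v (fun i _ => hcoh v i) i trivial) β hβ
    have e3 : r (glue univ (fun j => Y u j)) β = r (glue univ (fun j => Y v j)) β := by
      have := congrArg Subtype.val huv
      exact congrFun this ⟨β, lt_trans hβ (hδ i)⟩
    exact hdiff (by rw [← e1, ← e2, e3])
  have hcard := mk_le_of_injective hEinj
  have h2 : #(W1 → Bool) = 2 ^ (ℵ_ 1) := by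
    rw [← power_def, mk_bool, mk_W1]
  rw [h2] at hcard
  exact absurd (hcard.trans (hsmall δ)) (not_le.2 (cantor _))

/-- The subtree of all nodes of `T` which lie on at least `ℵ₃` branches of `T`. -/
def core (T : Tree) : Tree where
  level α := {σ | σ ∈ T.level α ∧ ℵ_ 3 ≤ #(T.branches ∩ N α σ : Set (W → W))}
  initial α β h σ hσ := ⟨T.initial α β h σ hσ.1, hσ.2.trans (mk_le_mk_of_subset (by
    rintro x ⟨hx, hx'⟩
    exact ⟨hx, fun γ => hx' ⟨γ, lt_of_lt_of_le γ.2 h⟩⟩))⟩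

theorem succ_aleph_two : Order.succ (ℵ_ 2) = ℵ_ 3 := by
  rw [Cardinal.succ_aleph]; norm_num

/-- Only `ℵ₂` branches are lost when passing to the core. -/
theorem mk_diff_le (T : Tree) (hsmall : ∀ α, #(T.level α) ≤ ℵ_ 1) :
    #(T.branches \ (core T).branches : Set (W → W)) ≤ ℵ_ 2 := by
  let I := Σ α : W, {σ : T.level α // #(T.branches ∩ N α σ : Set (W → W)) ≤ ℵ_ 2}
  have hsub : T.branches \ (core T).branches ⊆ ⋃ i : I, T.branches ∩ N i.1 i.2.1 := by
    rintro x ⟨hx, hx'⟩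
    have : ∃ α, res x α ∉ (core T).level α := by
      by_contra hcon
      push Not at hcon
      exact hx' hcon
    obtain ⟨α, hα⟩ := this
    have h1 : ¬ ℵ_ 3 ≤ #(T.branches ∩ N α (res x α) : Set (W → W)) := fun h => hα ⟨hx α, h⟩
    rw [not_le, ← succ_aleph_two, Order.lt_succ_iff] at h1
    exact mem_iUnion.2 ⟨⟨α, ⟨res x α, hx α⟩, h1⟩, hx, fun β => rfl⟩
  have hI : #I ≤ ℵ_ 2 := by
    rw [mk_sigma]
    refine (sum_le_mk_mul_iSup _).trans ?_
    have : (⨆ α : W, #{σ : T.level α // #(T.branches ∩ N α σ : Set (W → W)) ≤ ℵ_ 2}) ≤ ℵ_ 2 :=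
      ciSup_le' fun α => (mk_subtype_le _).trans ((hsmall α).trans (aleph_le_aleph.2 (by norm_num)))
    rw [mk_W]
    exact (mul_le_mul' le_rfl this).trans (by rw [mul_eq_self (aleph0_le_aleph 2)])
  refine (mk_le_mk_of_subset hsub).trans ((mk_iUnion_le _).trans ?_)
  have h2 : (⨆ i : I, #(T.branches ∩ N i.1 i.2.1 : Set (W → W))) ≤ ℵ_ 2 :=
    ciSup_le' fun i => i.2.2
  exact (mul_le_mul' hI h2).trans (by rw [mul_eq_self (aleph0_le_aleph 2)])

theorem le_of_le_add {a b : Cardinal.{0}} (h : ℵ_ 3 ≤ a + b) (hb : b ≤ ℵ_ 2) : ℵ_ 3 ≤ a := by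
  by_contra hcon
  rw [not_le, ← succ_aleph_two, Order.lt_succ_iff] at hcon
  have h1 : a + b ≤ ℵ_ 2 := (add_le_add hcon hb).trans (by rw [add_eq_self (aleph0_le_aleph 2)])
  have h2 := h.trans h1
  rw [← succ_aleph_two] at h2
  exact absurd h2 (not_le.2 (Order.lt_succ _))

theorem core_many (T : Tree) (hsmall : ∀ α, #(T.level α) ≤ ℵ_ 1) (Y : Set (W → W))
    (h : ℵ_ 3 ≤ #(T.branches ∩ Y : Set (W → W))) :
    ℵ_ 3 ≤ #((core T).branches ∩ Y : Set (W → W)) := by
  have hsub : (T.branches ∩ Y : Set (W → W)) ⊆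
      ((core T).branches ∩ Y) ∪ (T.branches \ (core T).branches) := by
    rintro x ⟨hx, hy⟩
    by_cases hc : x ∈ (core T).branches
    · exact Or.inl ⟨hc, hy⟩
    · exact Or.inr ⟨hx, hc⟩
  exact le_of_le_add (h.trans ((mk_le_mk_of_subset hsub).trans (mk_union_le _ _)))
    (mk_diff_le T hsmall)

/-- **Theorem (ZFC).** Every `ω₂`-Kurepa tree `T₀ ⊆ ^{<ω₂} ω₂` has a subtree `T` which is again an
`ω₂`-Kurepa tree, with at least `ℵ₃` branches through each of its nodes, such that the space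
`[T]` is not a retract of `^{ω₂} ω₂`. -/
theorem result (T₀ : Tree) (hT₀ : T₀.IsKurepa) :
    ∃ T : Tree, (∀ α, T.level α ⊆ T₀.level α) ∧ T.IsKurepa ∧
      (∀ α, ∀ σ ∈ T.level α, ℵ_ 3 ≤ #(T.branches ∩ N α σ : Set (W → W))) ∧
      ¬ IsRetract T.branches := by
  have hmany : ∀ Y : Set (W → W), ℵ_ 3 ≤ #(T₀.branches ∩ Y : Set (W → W)) →
      ℵ_ 3 ≤ #((core T₀).branches ∩ Y : Set (W → W)) := core_many T₀ hT₀.small
  have hbr : ℵ_ 3 ≤ #((core T₀).branches) := by
    have := hmany univ (by simpa using hT₀.many)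
    simpa using this
  have hnode : ∀ α, ∀ σ ∈ (core T₀).level α,
      ℵ_ 3 ≤ #((core T₀).branches ∩ N α σ : Set (W → W)) := fun α σ hσ => hmany _ hσ.2
  have hsmall : ∀ α, #((core T₀).level α) ≤ ℵ_ 1 := fun α =>
    (mk_le_mk_of_subset fun σ hσ => hσ.1).trans (hT₀.small α)
  refine ⟨core T₀, fun α σ hσ => hσ.1, ⟨fun α => ?_, hsmall, hbr⟩, hnode,
    not_isRetract _ hsmall ?_⟩
  · have hne : (core T₀).branches.Nonempty := by
      rw [nonempty_iff_ne_empty]
      intro h
      rw [h, mk_emptyCollection, nonpos_iff_eq_zero] at hbr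
      exact (Cardinal.aleph_pos 3).ne' hbr
    obtain ⟨x, hx⟩ := hne
    exact ⟨res x α, hx α⟩
  · intro α σ hσ
    have h1 : 1 < #((core T₀).branches ∩ N α σ : Set (W → W)) :=
      lt_of_lt_of_le (one_lt_aleph0.trans_le (aleph0_le_aleph 3)) (hnode α σ hσ)
    rw [one_lt_iff_nontrivial] at h1
    obtain ⟨⟨y, hy⟩, ⟨z, hz⟩, hyz⟩ := h1
    exact ⟨y, hy.1, z, hz.1, hy.2, hz.2, fun h => hyz (Subtype.ext h)⟩

end Pool.Agent.Results.MP_bf47cd_lc.NotRetract
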