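import Pool.Agent.Lib_MP_bf47cd.V14
import Pool.Agent.Results.MP_bf47cd_lc.NotRetract

/-!
# Both posed forms of Q1

First part (positive, continuous images): there is an `ω`-model of ZFC + GCH with an `ω₂`-Kurepa tree
in which, for every `ω₂`-Kurepa tree `T`, the space `[T]` is a continuous image of `^{ω₂} ω₂`.

Second part (negative, retracts): if there is an `ω₂`-Kurepa tree, then there is one whose space of
branches is not a retract of `^{ω₂} ω₂`.
-/

namespace Pool.Agent.Results.MP_bf47cd_lc.BothForms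

open Pool.Agent.Forcing Pool.Agent.Inner Pool.Agent.KTM

theorem result :
    (∃ (M : Type 3) (E : M → M → Prop),
      ModelsZFC E ∧ OmegaModel E ∧ GCH E ∧
      ∃ w0 w1 w2 w3 : M,
        IsOmega E w0 ∧ IsSuccCard E w0 w1 ∧ IsSuccCard E w1 w2 ∧ IsSuccCard E w2 w3 ∧
        (∃ T, IsKurepa E w1 w2 w3 T) ∧
        ∀ T, IsKurepa E w1 w2 w3 T → ∃ F, IsContOnto E w2 T F) ∧
    ((∃ T : NotRetract.Tree, T.IsKurepa) →
      ∃ T : NotRetract.Tree, T.IsKurepa ∧ ¬ NotRetract.IsRetract T.branches) := by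
  refine ⟨Pool.Agent.KTM.V.model_GCH, ?_⟩
  rintro ⟨T, hT⟩
  obtain ⟨T', _, h1, _, h2⟩ := NotRetract.result T hT
  exact ⟨T', h1, h2⟩

end Pool.Agent.Results.MP_bf47cd_lc.BothForms
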