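import Pool.Agent.Lib_MP_bf47cd.V14

/-!
# Consistency of: ZFC + GCH + there is an `ω₂`-Kurepa tree + for every `ω₂`-Kurepa tree `T` the
space `[T]` is a continuous image of `^{ω₂} ω₂`

The model is obtained with a forcing that adds a tree of height `ω₂` together with `ω₃` branches,
closed unbounded sets and surjections (collapsing an inaccessible cardinal to `ω₃`), followed by a
product of collapses for GCH above `ω₃`.
-/

namespace Pool.Agent.Results.MP_bf47cd_lc.ContinuousImages

open Pool.Agent.Forcing Pool.Agent.Inner Pool.Agent.KTM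

theorem result : ∃ (M : Type 3) (E : M → M → Prop),
    ModelsZFC E ∧ OmegaModel E ∧ GCH E ∧
    ∃ w0 w1 w2 w3 : M,
      IsOmega E w0 ∧ IsSuccCard E w0 w1 ∧ IsSuccCard E w1 w2 ∧ IsSuccCard E w2 w3 ∧
      (∃ T, IsKurepa E w1 w2 w3 T) ∧
      ∀ T, IsKurepa E w1 w2 w3 T → ∃ F, IsContOnto E w2 T F :=
  Pool.Agent.KTM.V.model_GCH

end Pool.Agent.Results.MP_bf47cd_lc.ContinuousImages
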